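import Pool.Agent.T6.H96.LB.Asy

/-!
# Vassiliev invariants of logarithmic order do not suffice for random closed braids

Sliced knot diagrams, their moves and Vassiliev invariants are those of the starting library
(`Pool.Agent.H835R2.Knot.Defs`): `Word` (a diagram, read from top to bottom, as a list of maxima
`birth i b`, minima `death i` and crossings `pos i`, `neg i`), `Closed` (oriented link diagrams),
`IsKnot` (oriented knot diagrams), `Isotopic` (generated by planar isotopy and the three Reidemeister
moves), `circle`, `IsInvariant v`, `DegreeLE n v` (all alternating sums over `n + 1` crossings vanish).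

`Lt m = Bool × Fin (m - 1)` are the letters `σ_i^{±1}` of the braid group on `m` strands, and
`cb m (toB w)` is the standard closure of the word `w : Fin N → Lt m` (`Pool.Agent.T6.H96.LB.Bra`,
`Pool.Agent.T6.H96.LB.Cnt`): `m` nested maxima, then the word drawn on the `m` strands to the left
(all directed downwards), then `m` nested minima.

`Hidden n D`: the diagram `D` is a diagram of a non-trivial knot, but `v D = v circle` for every
knot invariant `v` with `DegreeLE n v` with values in any abelian group.  `nHid m n N` is the number of
the words `w : Fin N → Lt m` for which `cb m (toB w)` is hidden in this sense.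
-/

set_option autoImplicit false

namespace Pool.Agent.Results.MP_5f6b43_gt.LogarithmicOrder

open Pool.Agent.H835R2.Knot Pool.Agent.T6.H96.LB

/-- Let `m ≥ 3`. The closures `cb m (toB w)` of the words of length `N` are diagrams of oriented links
with `N` crossings.  There is `C` such that for all `n` and all lengths `N ≥ C (n + 1)^2` with
`N ≡ m - 1` modulo 2

* at least a proportion `N^(-C^(n+1))` of all words of length `N` have as closure a non-trivial knot which
  is not separated from the unknot by Vassiliev invariants of order at most `n` (with values in any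
  abelian group);
* in particular there is such a word.

For every `ε > 0` there is `δ > 0` such that for all large `N ≡ m - 1` modulo 2 the proportion of the
words of length `N` whose closure is a non-trivial knot which is not separated from the unknot by
Vassiliev invariants of order at most `δ log N` is at least `exp(-N^ε)`. -/
theorem result : ∀ m : ℕ, 3 ≤ m →
    (∀ (N : ℕ) (w : Fin N → Lt m), Closed (cb m (toB w)) ∧ crossings (cb m (toB w)) = N) ∧
    (∃ C : ℕ, ∀ n N : ℕ, C * (n + 1) ^ 2 ≤ N → N % 2 = (m - 1) % 2 →
      (2 * (m - 1)) ^ N ≤ N ^ (C ^ (n + 1)) * nHid m n N ∧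
      ∃ w : Fin N → Lt m, Hidden n (cb m (toB w))) ∧
    (∀ ε : ℝ, 0 < ε → ∃ δ : ℝ, 0 < δ ∧ ∃ N0 : ℕ, ∀ N : ℕ, N0 ≤ N → N % 2 = (m - 1) % 2 →
      ∀ n : ℕ, (n : ℝ) ≤ δ * Real.log N →
        Real.exp (-(N : ℝ) ^ ε) * ((2 * (m - 1) : ℕ) : ℝ) ^ N ≤ nHid m n N) := by
  intro m hm
  refine ⟨fun N w => ⟨closed_cb (map_lo_lt le_rfl _), crossings_cb w⟩, ?_, fun ε hε => asy hm hε⟩
  obtain ⟨C, _, hC⟩ := count hm
  exact ⟨C, fun n N h1 h2 => ⟨hC n N h1 h2, exists_hidden hm (hC n N h1 h2)⟩⟩

end Pool.Agent.Results.MP_5f6b43_gt.LogarithmicOrder
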