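import Pool.Agent.T6.H96.VB.Linear

/-!
# Vassiliev invariants of order two and random braid words: the rate `1 / n`

Diagrams (starting library `Pool.Agent.H891R2.Jones.Diagram`): `Diagram P` (oriented link diagrams with
marked points `P`, planar or not), `Outer m` (the part of an oriented diagram outside a box through which
`m` strands run, with arbitrary directions).  `Pool.Agent.W639.RB.Defs` (starting library):
`Letter m = Bool × Fin (m - 1)` (the letters `σ_i^{±1}` of the braid group on `m` strands), `diagram O w` (the
diagram obtained by drawing the word `w : Fin n → Letter m` in the box of `O`).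
`Pool.Agent.W705.JR.Vas`: `dia O w` is the diagram `diagram O w` as an element of `Dia`.
`Pool.Agent.Y463.BS.Last`: `IsKnot D` (the pieces of `D` fit together to closed oriented curves, and there
is only one curve: `D` is a diagram of a knot).

Vassiliev invariants (starting library `Pool.Agent.H832R3.VJ.Defs`): `Dia` (an oriented diagram with
the finite set of its marked points), `Separated d X Y` (some integer valued Vassiliev invariant of
oriented links of order at most `d` has different values on `X` and `Y`).
-/

set_option autoImplicit false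

namespace Pool.Agent.Results.MP_5f6b43_gt.OrderTwoLinearRate

open Finset Pool.Agent.H891R2.Jones Pool.Agent.H832R3.VJ Pool.Agent.T6.H96.VB
open Pool.Agent.W639.RB (Letter diagram)
open Pool.Agent.W705.JR (dia)
open Pool.Agent.Y463.BS (IsKnot)

open Classical in
/-- For every `m ≥ 3` there is a number `L`, depending only on `m`, with the following property.  Let `O`
be the outside of a box through which `m` strands run (with arbitrary directions, and with arbitrary arcs and
crossings outside the box), and let `X` be any diagram, for instance the one of the unknot.  Draw a random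
word of `n` independent letters (not necessarily identically distributed) in the box, where each of the
`2 (m - 1)` letters `σ_i^{±1}` has at each place the probability at least `ε > 0`.

* The probability that the diagram is a diagram of a knot which is not separated from `X` by Vassiliev
  invariants of order at most TWO is at most `L ε^(-L) / n`.
* If some word of length `n₀` gives a knot, and `n ≥ L` has the parity of `n₀`, then the conditional
  probability of this event, given that the diagram is a diagram of a knot, is at most `L ε^(-L) / n`. -/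
theorem result (m : ℕ) (hm : 3 ≤ m) : ∃ L : ℕ, ∀ (O : Outer m) (n : ℕ), 0 < n →
    ∀ (q : Fin n → Letter m → ℝ) (ε : ℝ), 0 < ε → (∀ s x, ε ≤ q s x) → (∀ s, ∑ x, q s x = 1) → ∀ X : Dia,
    ∑ w : Fin n → Letter m, (if IsKnot (diagram O w) ∧ ¬ Separated 2 (dia O w) X then
      ∏ s, q s (w s) else 0) ≤ L / (ε ^ L * n) ∧
    (∀ (n0 : ℕ) (w0 : Fin n0 → Letter m), IsKnot (diagram O w0) → L ≤ n → n % 2 = n0 % 2 →
      ∑ w : Fin n → Letter m, (if IsKnot (diagram O w) ∧ ¬ Separated 2 (dia O w) X then
        ∏ s, q s (w s) else 0) ≤ L / (ε ^ L * n) *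
      ∑ w : Fin n → Letter m, (if IsKnot (diagram O w) then ∏ s, q s (w s) else 0)) := by
  obtain ⟨l0, hl0⟩ := many2 (m := m) (by omega)
  refine ⟨279 * (bL hm + l0), fun O n hn q ε hε hq hs X => ?_⟩
  have h1 := rateB hm O n hn q ε hε hq hs X
  have hε4 : 4 * ε ≤ 1 := eps_le hm (q ⟨0, hn⟩) ε (hq _) (hs _)
  have hε1 : ε ≤ 1 := by linarith
  have hn' : (0 : ℝ) < n := by exact_mod_cast hn
  have key : 279 * bL hm / (ε ^ bL hm * n) ≤ ((279 * (bL hm + l0) : ℕ) : ℝ) / (ε ^ (279 * (bL hm + l0)) * n) * ε ^ l0 := by
    have h2 : ε ^ (279 * (bL hm + l0)) ≤ ε ^ (bL hm + l0) := pow_le_pow_of_le_one hε.le hε1 (by omega)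
    rw [div_mul_eq_mul_div, div_le_div_iff₀ (by positivity) (by positivity)]
    push_cast
    calc 279 * (bL hm : ℝ) * (ε ^ (279 * (bL hm + l0)) * n) ≤ 279 * (bL hm + l0) * (ε ^ (bL hm + l0) * n) := by
          have : (0 : ℝ) ≤ l0 := by positivity
          gcongr
          linarith
      _ = _ := by rw [pow_add]; ring
  have hpos : 0 ≤ ((279 * (bL hm + l0) : ℕ) : ℝ) / (ε ^ (279 * (bL hm + l0)) * n) := by positivity
  refine ⟨h1.trans (key.trans ?_), fun n0 w0 hw0 hL hpar => h1.trans (key.trans ?_)⟩
  · have : ε ^ l0 ≤ 1 := pow_le_one₀ hε.le hε1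
    nlinarith
  · exact mul_le_mul_of_nonneg_left (hl0 O n0 w0 hw0 n (by omega) hpar q ε hε hq hs) hpos

end Pool.Agent.Results.MP_5f6b43_gt.OrderTwoLinearRate
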