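import Pool.Agent.T6.H96.VB.Final

/-!
# Vassiliev invariants of order two and random braid words: the rate `n^(-1/2)`

Diagrams (starting library `Pool.Agent.H891R2.Jones.Diagram`): `Diagram P` (oriented link diagrams with
marked points `P`, planar or not), `Outer m` (the part of an oriented diagram outside a box through which
`m` strands run, with arbitrary directions).  `Pool.Agent.W639.RB.Defs` (starting library):
`Letter m = Bool × Fin (m - 1)` (the letters `σ_i^{±1}` of the braid group on `m` strands), `diagram O w` (the
diagram obtained by drawing the word `w : Fin n → Letter m` in the box of `O`).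
`Pool.Agent.W705.JR.Vas`: `dia O w` is the diagram `diagram O w` as an element of `Dia`.
`Pool.Agent.Y463.BS.Last`: `IsKnot D` (the pieces of `D` fit together to closed oriented curves, and there
is only one curve: `D` is a diagram of a knot).

Vassiliev invariants (starting library `Pool.Agent.H832R3.VJ.Defs`): `Dia` (an oriented diagram with
the finite set of its marked points), `Separated d X Y` (some integer valued Vassiliev invariant of
oriented links of order at most `d` has different values on `X` and `Y`).

`Pool.Agent.T6.H96.VB.Blocks`: `Act c` (the four letters `c 0, c 1, c 2, c 3` are of the form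
`σ_i^{s}, σ_j^{u}, σ_j^{u}, σ_i^{-s}` with `|i - j| = 1` and signs `s, u`); `pl t ht (k, l)` is the place
`t k + l` of a word of length `n`.  `Pool.Agent.T6.H96.VB.Final`: `rhoA q` (the probability that four
independent letters with the probabilities `q` are of this form).
-/

set_option autoImplicit false

namespace Pool.Agent.Results.MP_5f6b43_gt.OrderTwoSquareRoot

open Finset Pool.Agent.H891R2.Jones Pool.Agent.H832R3.VJ Pool.Agent.T6.H96.VB
open Pool.Agent.W639.RB (Letter diagram)
open Pool.Agent.W705.JR (dia)
open Pool.Agent.Y463.BS (IsKnot)

open Classical in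
/-- Let `O` be the outside of a box through which `m ≥ 1` strands run (with arbitrary directions, and with
arbitrary arcs and crossings outside the box), and let `X` be any diagram, for instance the one of the
unknot.  Vassiliev invariants of order at most TWO separate the knots obtained by drawing random words in
the letters `σ_i^{±1}` in the box from `X`, except with a small probability:

* (independent letters) The letter number `s` has the distribution `q s`.  Suppose that `N` disjoint blocks of
  four consecutive places `t k, …, t k + 3` are given, that the letters at the places `t k` and `t k + 3`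
  have the same distribution, and that each block is of the form `σ_i^{±1} σ_j^u σ_j^u σ_i^{∓1}`, `|i - j| = 1`,
  with probability at least `p`.  Then the probability that the diagram is a diagram of a knot which is not
  separated from `X` by Vassiliev invariants of order at most two is at most `(p (N + 1))^(-1/2)`.
* (identically distributed letters) For all distributions `q` of the letters for which four independent
  letters are of this form with probability `ρ > 0` (for instance if `m ≥ 3` and all letters have positive
  probability), the probability for words of length `n` is at most `2 (ρ n)^(-1/2)`, for all `O`, `X`.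
* (a given shadow) Let the numbers `i s` of the letters be fixed, and let `N` disjoint blocks of four
  consecutive places be of the form `i, j, j, i` with `|i - j| = 1`.  Then at most `2 (N + 1)^(-1/2) 2^n` of
  the `2^n` choices of the signs of the crossings in the box give a knot which is not separated from `X`
  by Vassiliev invariants of order at most two.
* (among the knots) For every `m ≥ 3` there are `C`, `l₀` such that: if a word of length `n₀` gives
  a knot, then for all `n ≥ l₀` with `n ≡ n₀` modulo 2 the proportion of the words whose knot is not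
  separated from `X` by Vassiliev invariants of order at most two, among all words of length `n` which
  give a knot, is at most `C n^(-1/2)`. -/
theorem result :
    (∀ (m : ℕ), 0 < m → ∀ (O : Outer m) (n N : ℕ) (t : Fin N → ℕ) (ht : ∀ k, t k + 3 < n),
      (∀ k l, k ≠ l → t k + 3 < t l ∨ t l + 3 < t k) →
      ∀ q : Fin n → Letter m → ℝ, (∀ s x, 0 ≤ q s x) → (∀ s, ∑ x, q s x = 1) →
      (∀ k x, q (pl t ht (k, 0)) x = q (pl t ht (k, 3)) x) →
      ∀ p : ℝ, 0 < p → p ≤ 1 →
      (∀ k, p ≤ ∑ c : Fin 4 → Letter m, if Act c then ∏ l, q (pl t ht (k, l)) (c l) else 0) → ∀ X : Dia,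
      ∑ w : Fin n → Letter m, (if IsKnot (diagram O w) ∧ ¬ Separated 2 (dia O w) X then
        ∏ s, q s (w s) else 0) ≤ Real.sqrt (1 / (p * (N + 1)))) ∧
    (∀ (m : ℕ), 0 < m → ∀ q : Letter m → ℝ, (∀ x, 0 ≤ q x) → ∑ x, q x = 1 →
      (3 ≤ m → (∀ x, 0 < q x) → 0 < rhoA q) ∧
      (0 < rhoA q → ∀ (O : Outer m) (n : ℕ), 0 < n → ∀ X : Dia,
        ∑ w : Fin n → Letter m, (if IsKnot (diagram O w) ∧ ¬ Separated 2 (dia O w) X then
          ∏ s, q (w s) else 0) ≤ 2 / Real.sqrt (rhoA q * n))) ∧
    (∀ (m : ℕ), 0 < m → ∀ (O : Outer m) (n N : ℕ) (t : Fin N → ℕ) (ht : ∀ k, t k + 3 < n),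
      (∀ k l, k ≠ l → t k + 3 < t l ∨ t l + 3 < t k) →
      ∀ i : Fin n → Fin (m - 1), (∀ k, i (pl t ht (k, 0)) = i (pl t ht (k, 3))) →
      (∀ k, i (pl t ht (k, 1)) = i (pl t ht (k, 2))) →
      (∀ k, (i (pl t ht (k, 0)) : ℕ) + 1 = i (pl t ht (k, 1)) ∨
        (i (pl t ht (k, 1)) : ℕ) + 1 = i (pl t ht (k, 0))) → ∀ X : Dia,
      ((univ.filter (fun s : Fin n → Bool => IsKnot (diagram O fun x => (s x, i x)) ∧
        ¬ Separated 2 (dia O fun x => (s x, i x)) X)).card : ℝ) ≤ 2 / Real.sqrt (N + 1) * 2 ^ n) ∧
    (∀ m : ℕ, 3 ≤ m → ∃ (C : ℝ) (l0 : ℕ), ∀ (O : Outer m) (n0 : ℕ) (w0 : Fin n0 → Letter m),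
      IsKnot (diagram O w0) → ∀ n, 0 < n → l0 ≤ n → n % 2 = n0 % 2 → ∀ X : Dia,
      ((univ.filter (fun w : Fin n → Letter m => IsKnot (diagram O w) ∧
        ¬ Separated 2 (dia O w) X)).card : ℝ) ≤ C / Real.sqrt n *
        (univ.filter (fun w : Fin n → Letter m => IsKnot (diagram O w))).card) := by
  refine ⟨fun m hm O n N t ht hd q hq hs hsym p hp hp1 hp' X =>
      partA hm O n N t ht hd q hq hs hsym p hp hp1 hp' X,
    fun m hm q hq hs => ⟨fun h3 hpos => rhoA_pos h3 q hpos, fun hr O n hn X => ?_⟩,
    fun m hm O n N t ht hd i h03 h12 h01 X => partC hm O n N t ht hd i h03 h12 h01 X,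
    fun m hm => partD hm⟩
  exact partB hm O q hq hs hr n hn X

end Pool.Agent.Results.MP_5f6b43_gt.OrderTwoSquareRoot
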