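import Pool.Agent.T6.H96.VB.PowerB

/-!
# Vassiliev invariants of bounded order and random braid words: arbitrary polynomial rates

Diagrams (starting library `Pool.Agent.H891R2.Jones.Diagram`): `Diagram P` (oriented link diagrams with
marked points `P`, planar or not), `Outer m` (the part of an oriented diagram outside a box through which
`m` strands run, with arbitrary directions).  `Pool.Agent.W639.RB.Defs` (starting library):
`Letter m = Bool × Fin (m - 1)` (the letters `σ_i^{±1}` of the braid group on `m` strands), `diagram O w` (the
diagram obtained by drawing the word `w : Fin n → Letter m` in the box of `O`).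
`Pool.Agent.W705.JR.Vas`: `dia O w` is the diagram `diagram O w` as an element of `Dia`.
`Pool.Agent.Y463.BS.Last`: `IsKnot D` (the pieces of `D` fit together to closed oriented curves, and there
is only one curve: `D` is a diagram of a knot).

Vassiliev invariants (starting library `Pool.Agent.H832R3.VJ.Defs`): `Dia` (an oriented diagram with
the finite set of its marked points), `Separated d X Y` (some integer valued Vassiliev invariant of
oriented links of order at most `d` has different values on `X` and `Y`).

Method: `Pool.Agent.T6.H96.VB.Moves` constructs iterated commutators `g` of pure braids (words of level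
`2 j`) whose insertion at any place with a pure prefix changes the invariant moment number `2 j` of
the Jones polynomial of a knot by a constant `≠ 0` and the moments of lower order not at all.
-/

set_option autoImplicit false

namespace Pool.Agent.Results.MP_5f6b43_gt.PolynomialRates

open Finset MeasureTheory ProbabilityTheory Pool.Agent.H891R2.Jones Pool.Agent.H832R3.VJ Pool.Agent.T6.H96.VB
open Pool.Agent.W639.RB (Letter diagram)
open Pool.Agent.W705.JR (dia)
open Pool.Agent.Y463.BS (IsKnot)

open Classical in
/-- Let `m ≥ 3`, and let `O` be the outside of a box through which `m` strands run (with arbitrary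
directions, and with arbitrary arcs and crossings outside the box).  Draw random words of independent letters
(not necessarily identically distributed) in the box, where each of the `2 (m - 1)` letters `σ_i^{±1}` has
at each place the probability at least `ε > 0`.  Let `X` be any diagram, for instance the one of the unknot.

* For every `k ≥ 2` there is a number `L`, depending only on `m` and `k`, such that for words of length `n`
  the probability that the diagram is a diagram of a knot which is not separated from `X` by Vassiliev
  invariants of order at most `2 k` is at most `(L ε^(-L) n^(-1/2))^(k + 1)`.  So for every exponent `a`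
  the invariants of a fixed order fail with a probability `O(n^(-a))`.
* If some word of length `n₀` gives a knot, and `n ≥ L` has the parity of `n₀`, then this is also a bound
  for the conditional probability, given that the diagram is a diagram of a knot.
* Let the first `n` letters `X₀, …, X_(n-1)` of an infinite random word be drawn in the box.  Almost surely,
  for all but finitely many `n`, the diagram is not a diagram of a knot or it is separated from `X` by Vassiliev
  invariants of order at most FOUR. -/
theorem result (m : ℕ) (hm : 3 ≤ m) :
    (∀ k : ℕ, 2 ≤ k → ∃ L : ℕ, ∀ (O : Outer m) (n : ℕ), 0 < n →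
      ∀ (q : Fin n → Letter m → ℝ) (ε : ℝ), 0 < ε → (∀ s x, ε ≤ q s x) → (∀ s, ∑ x, q s x = 1) → ∀ X : Dia,
      ∑ w : Fin n → Letter m, (if IsKnot (diagram O w) ∧ ¬ Separated (2 * k) (dia O w) X then
        ∏ s, q s (w s) else 0) ≤ (L / (ε ^ L * Real.sqrt n)) ^ (k + 1) ∧
      (∀ (n0 : ℕ) (w0 : Fin n0 → Letter m), IsKnot (diagram O w0) → L ≤ n → n % 2 = n0 % 2 →
        ∑ w : Fin n → Letter m, (if IsKnot (diagram O w) ∧ ¬ Separated (2 * k) (dia O w) X then
          ∏ s, q s (w s) else 0) ≤ (L / (ε ^ L * Real.sqrt n)) ^ (k + 1) *
        ∑ w : Fin n → Letter m, (if IsKnot (diagram O w) then ∏ s, q s (w s) else 0))) ∧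
    (∀ (O : Outer m) (X : Dia) (Ω : Type) [MeasurableSpace Ω] (μ : Measure Ω) [IsProbabilityMeasure μ]
      (W : ℕ → Ω → Letter m), (∀ s, Measurable (W s)) → iIndepFun W μ →
      ∀ ε : ℝ, 0 < ε → (∀ s x, ε ≤ (μ (W s ⁻¹' {x})).toReal) →
      ∀ᵐ ω ∂μ, ∀ᶠ n in Filter.atTop, IsKnot (diagram O (fun s : Fin n => W s ω)) →
        Separated 4 (dia O (fun s : Fin n => W s ω)) X) := by
  refine ⟨fun k hk => ?_, fun O X Ω _ μ _ W hW hI ε hε hq => almost_surely hm O X μ W hW hI ε hε hq⟩
  obtain ⟨p, rfl⟩ : ∃ p, k = p + 1 := ⟨k - 1, by omega⟩
  obtain ⟨L, h⟩ := powerC hm p
  exact ⟨L, h⟩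

end Pool.Agent.Results.MP_5f6b43_gt.PolynomialRates
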